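import Pool.Agent.H332.HT.Defs

/-!
Project HT (helper332): three good arcs give eight directions.
-/

set_option autoImplicit false

namespace Pool.Agent.H795.HT

open Pool.Agent.H332.HT

/-- the half-turn of a direction -/
def R (d : V3) : V3 := (-d.1, d.2)

theorem q_shift {K : Set V3} {q : ℝ → V2} (hq : Par K q) (n : ℤ) :
    ∀ t : ℝ, q (t - n * Real.pi) = q t ∨ q (t - n * Real.pi) = - q t := by
  induction n using Int.induction_on with
  | zero => intro t; left; simp
  | succ i ih =>
    intro t
    have h1 := ih (t - Real.pi)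
    have e1 : t - (((i : ℤ) + 1 : ℤ) : ℝ) * Real.pi = t - Real.pi - ((i : ℤ) : ℝ) * Real.pi := by
      push_cast
      ring
    have h2 : q t = - q (t - Real.pi) := by
      have := hq.anti (t - Real.pi)
      rwa [sub_add_cancel] at this
    rw [e1]
    rcases h1 with h1 | h1
    · right
      rw [h1, h2, neg_neg]
    · left
      rw [h1, h2]
  | pred i ih =>
    intro t
    have h1 := ih (t + Real.pi)
    have e1 : t - ((-(i : ℤ) - 1 : ℤ) : ℝ) * Real.pi = t + Real.pi - ((-(i : ℤ) : ℤ) : ℝ) * Real.pi := by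
      push_cast
      ring
    have h2 := hq.anti t
    rw [e1]
    rcases h1 with h1 | h1
    · right
      rw [h1, h2]
    · left
      rw [h1, h2, neg_neg]

theorem three (hP : S_P) (hf : S_fib) (hik : S_IntK) (hsym : S_sym) : S_three := by
  intro K hK q hq a s c has hsc hca G1 G2 G3
  obtain ⟨d1, h1⟩ := G1
  obtain ⟨d2, h2⟩ := G2
  obtain ⟨d3, h3⟩ := G3
  refine ⟨![d1, R d1, d2, R d2, d3, R d3, ((0 : V2), (1 : ℝ)), ((0 : V2), (-1 : ℝ))], ?_⟩
  rintro ⟨p, z⟩ hx hxi
  by_cases hp : p ∈ IP K
  · obtain ⟨z', hz'⟩ := (hf K hK).1 p hp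
    have hne : z' ≠ z := by
      rintro rfl
      exact hxi hz'
    rcases lt_or_gt_of_ne hne with hlt | hgt
    · refine ⟨7, z - z', by linarith, ?_⟩
      have e : ((p, z) : V3) + (z - z') • (((0 : V2), (-1 : ℝ)) : V3) = (p, z') := by
        ext <;> simp
      show ((p, z) : V3) + (z - z') • (((0 : V2), (-1 : ℝ)) : V3) ∈ interior K
      rw [e]
      exact hz'
    · refine ⟨6, z' - z, by linarith, ?_⟩
      have e : ((p, z) : V3) + (z' - z) • (((0 : V2), (1 : ℝ)) : V3) = (p, z') := by
        ext <;> simp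
      show ((p, z) : V3) + (z' - z) • (((0 : V2), (1 : ℝ)) : V3) ∈ interior K
      rw [e]
      exact hz'
  · have hpP : p ∈ P K := ⟨(p, z), hx, rfl⟩
    obtain ⟨t, rfl⟩ := hq.surj p hpP hp
    obtain ⟨n, hn, -⟩ := existsUnique_sub_zsmul_mem_Ico Real.pi_pos t a
    simp only [zsmul_eq_mul] at hn
    set t' : ℝ := t - n * Real.pi with ht'
    have hs := q_shift hq n t
    rw [← ht'] at hs
    have hmem : ((q t', z) : V3) ∈ K := by
      rcases hs with h | h
      · rw [h]; exact hx
      · rw [h]; exact hK.symm _ _ hx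
    have key : ∀ d : V3, d ∈ C K (q t', z) → d ∈ C K (q t, z) ∨ R d ∈ C K (q t, z) := by
      intro d hd
      rcases hs with h | h
      · left
        rw [h] at hd
        exact hd
      · right
        rw [h] at hd
        have := hsym K hK (-q t) d.1 z d.2 hd
        rwa [neg_neg] at this
    rcases le_or_gt t' s with h | h
    · rcases key d1 (h1 t' hn.1 h z hmem) with h' | h'
      · exact ⟨0, h'⟩
      · exact ⟨1, h'⟩
    · rcases le_or_gt t' c with h' | h'
      · rcases key d2 (h2 t' h.le h' z hmem) with h'' | h''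
        · exact ⟨2, h''⟩
        · exact ⟨3, h''⟩
      · rcases key d3 (h3 t' h'.le hn.2.le z hmem) with h'' | h''
        · exact ⟨4, h''⟩
        · exact ⟨5, h''⟩

end Pool.Agent.H795.HT
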